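import Mathlib
import Pool.Agent.Results.MP_e841a3_pr.EntropyRateFails

/-!
No rate at all in the entropic central limit theorem under a fourth moment bound.

For every bound `B > 1` on `|X_1|` (so `E X_1^4 ≤ B^2`), every `N` and every `θ < 1` there is a law
such that `D(f_n) > θ D(f_1)` for all `n ≤ N`.  Hence for every `M > 1` any rate function `r` with
`D(f_n) ≤ r(n) D(f_1)` for all laws with `E X_1^4 ≤ M` satisfies `r(n) ≥ 1` for all `n`.
-/

set_option autoImplicit false
open MeasureTheory ProbabilityTheory InformationTheory Filter Topology Set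
open scoped ENNReal NNReal

namespace Pool.Agent.Results.MP_e841a3_pr.EntropyNoRate

open Pool.Agent.Results.MP_e841a3_pr.EntropyRateFails

/-- Independent random variables with the same law `ν`. -/
def IsIID {Ω : Type} [MeasurableSpace Ω] (P : Measure Ω) (X : ℕ → Ω → ℝ) (ν : Measure ℝ) : Prop :=
  (∀ i, Measurable (X i)) ∧ iIndepFun X P ∧ ∀ i, P.map (X i) = ν

/-- The law of the normalised sum `S_n = (X_0 + ... + X_{n-1}) / √n`. -/
noncomputable def sumLaw {Ω : Type} [MeasurableSpace Ω] (P : Measure Ω) (X : ℕ → Ω → ℝ) (n : ℕ) :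
    Measure ℝ :=
  P.map (fun ω => (∑ i ∈ Finset.range n, X i ω) / Real.sqrt n)

/-- The admissible laws: they have a density, mean `0`, variance `1`, finite relative entropy, are
symmetric and carried by `[-B, B]`. -/
structure Admissible (B : ℝ) (ν : Measure ℝ) : Prop where
  prob : IsProbabilityMeasure ν
  ac : ν ≪ volume
  mean : ∫ x, x ∂ν = 0
  var : ∫ x, x ^ 2 ∂ν = 1
  bdd : ∀ᵐ x ∂ν, |x| ≤ B
  symm : ν.map (fun x => -x) = ν
  finite : klDiv ν (gaussianReal 0 1) ≠ ∞

theorem bumps_abs' {s : ℝ} {x : ℝ} (hx : x ∈ bumps s) : |x| ≤ 1 + s := by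
  have h := cen_le (s := s)
  have h0 : 0 ≤ cen s := Real.sqrt_nonneg _
  rcases hx with hx | hx
  · rw [abs_le]; constructor <;> linarith [hx.1, hx.2]
  · rw [abs_le]; constructor <;> linarith [hx.1, hx.2]

theorem neg_bumps (s : ℝ) : (fun x : ℝ => -x) ⁻¹' (bumps s) = bumps s := by
  ext x
  simp only [bumps, mem_preimage, mem_union, mem_Icc]
  constructor
  · rintro (⟨h1, h2⟩ | ⟨h1, h2⟩)
    · right; constructor <;> linarith
    · left; constructor <;> linarith
  · rintro (⟨h1, h2⟩ | ⟨h1, h2⟩)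
    · right; constructor <;> linarith
    · left; constructor <;> linarith

theorem nu_symm (s : ℝ) : (nu s).map (fun x => -x) = nu s := by
  have h1 : (volume.restrict (bumps s)).map (fun x : ℝ => -x) = volume.restrict (bumps s) := by
    have h2 := Measure.restrict_map (μ := (volume : Measure ℝ)) (f := fun x : ℝ => -x)
      measurable_neg (meas_bumps s)
    rw [neg_bumps, Measure.map_neg_eq_self] at h2
    exact h2.symm
  rw [nu, Measure.map_smul, h1]

theorem admissible_nu {B s : ℝ} (hs : 0 < s) (hs1 : s ≤ 1 / 2) (hB : 1 + s ≤ B) :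
    Admissible B (nu s) where
  prob := nu_prob hs hs1
  ac := nu_ac s
  mean := nu_mean hs hs1
  var := nu_sq hs hs1
  bdd := by
    filter_upwards [nu_ae s] with x hx
    exact (bumps_abs' hx).trans hB
  symm := nu_symm s
  finite := ne_top_of_le_ne_top ENNReal.ofReal_ne_top (klDiv_nu_le hs hs1)

/-- The fourth moment of an admissible law. -/
theorem fourth {B : ℝ} {ν : Measure ℝ} (h : Admissible B ν) :
    Integrable (fun x : ℝ => x ^ 4) ν ∧ ∫ x, x ^ 4 ∂ν ≤ B ^ 2 := by
  have := h.prob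
  have hi : ∀ k : ℕ, Integrable (fun x : ℝ => x ^ k) ν := by
    intro k
    apply Integrable.of_bound (C := B ^ k) (by fun_prop)
    filter_upwards [h.bdd] with x hx
    rw [Real.norm_eq_abs, abs_pow]
    exact pow_le_pow_left₀ (abs_nonneg x) hx k
  refine ⟨hi 4, ?_⟩
  have h1 : ∫ x, x ^ 4 ∂ν ≤ ∫ x, B ^ 2 * x ^ 2 ∂ν := by
    apply integral_mono_ae (hi 4) ((hi 2).const_mul _)
    filter_upwards [h.bdd] with x hx
    have h2 : x ^ 2 ≤ B ^ 2 := by
      rw [← sq_abs x]
      exact pow_le_pow_left₀ (abs_nonneg x) hx 2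
    have h3 : x ^ 4 = x ^ 2 * x ^ 2 := by ring
    simp only [h3]
    exact mul_le_mul_of_nonneg_right h2 (sq_nonneg x)
  rw [integral_const_mul, h.var, mul_one] at h1
  exact h1

/-- The law of the sum is carried by the value set. -/
theorem sum_null {Ω : Type} [MeasurableSpace Ω] {P : Measure Ω} {X : ℕ → Ω → ℝ} {s : ℝ}
    (hX : IsIID P X (nu s)) {n : ℕ} (hn : 1 ≤ n) : (sumLaw P X n) (valueSet s n)ᶜ = 0 := by
  have hS : Measurable (fun ω => (∑ i ∈ Finset.range n, X i ω) / Real.sqrt n) :=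
    (Finset.measurable_sum _ fun i _ => hX.1 i).div_const _
  rw [sumLaw, Measure.map_apply hS (meas_valueSet s n).compl]
  have hall : ∀ᵐ ω ∂P, ∀ i, X i ω ∈ bumps s := by
    rw [ae_all_iff]
    intro i
    have h1 := nu_ae s
    rw [← hX.2.2 i] at h1
    exact ae_of_ae_map (hX.1 i).aemeasurable h1
  have h2 : ∀ᵐ ω ∂P, ω ∉ (fun ω => (∑ i ∈ Finset.range n, X i ω) / Real.sqrt n) ⁻¹'
      (valueSet s n)ᶜ := by
    filter_upwards [hall] with ω hω
    simp only [mem_preimage, mem_compl_iff, not_not]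
    exact sum_mem_valueSet s (fun i => X i ω) hω hn
  exact measure_eq_zero_iff_ae_notMem.mpr h2

/-- The main estimate. -/
theorem main (B θ : ℝ) (hB : 1 < B) (hθ : θ < 1) (N : ℕ) :
    ∃ ν : Measure ℝ, Admissible B ν ∧
      ∀ (Ω : Type) (_ : MeasurableSpace Ω) (P : Measure Ω) (_ : IsProbabilityMeasure P)
        (X : ℕ → Ω → ℝ), IsIID P X ν → ∀ n : ℕ, 1 ≤ n → n ≤ N →
          ENNReal.ofReal θ * klDiv ν (gaussianReal 0 1) <
            klDiv (sumLaw P X n) (gaussianReal 0 1) := by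
  -- we may assume `0 ≤ θ`
  set η : ℝ := max θ 0 with hη
  have hη0 : 0 ≤ η := le_max_right _ _
  have hη1 : η < 1 := max_lt hθ zero_lt_one
  have hηθ : ENNReal.ofReal θ ≤ ENNReal.ofReal η := ENNReal.ofReal_le_ofReal (le_max_left _ _)
  set N' : ℝ := (N : ℝ) + 1 with hN'
  have hN1 : 1 ≤ N' := by
    have : (0 : ℝ) ≤ N := Nat.cast_nonneg N
    linarith
  set L : ℝ := Real.log (Real.sqrt (2 * Real.pi) * Real.exp 2 / 4) with hL
  have hlog4 : 0 ≤ Real.log (4 * N' ^ 2) := Real.log_nonneg (by nlinarith)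
  set K : ℝ := (Real.log (4 * N' ^ 2) + |L| + 1) / (1 - η) with hK
  have hKnum : 0 < Real.log (4 * N' ^ 2) + |L| + 1 := by positivity
  have hKpos : 0 < K := div_pos hKnum (by linarith)
  have hKge : Real.log (4 * N' ^ 2) + |L| + 1 ≤ K := by
    rw [hK, le_div_iff₀ (by linarith)]
    nlinarith
  set s : ℝ := min (min (1 / 2) (B - 1)) (Real.exp (-K)) with hs_def
  have hs : 0 < s := lt_min (lt_min (by norm_num) (by linarith)) (Real.exp_pos _)
  have hs1 : s ≤ 1 / 2 := (min_le_left _ _).trans (min_le_left _ _)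
  have hsB : 1 + s ≤ B := by
    have : s ≤ B - 1 := (min_le_left _ _).trans (min_le_right _ _)
    linarith
  have hlogs : K ≤ - Real.log s := by
    have : Real.log s ≤ Real.log (Real.exp (-K)) := Real.log_le_log hs (min_le_right _ _)
    rw [Real.log_exp] at this
    linarith
  have habs : -|L| ≤ L ∧ L ≤ |L| := ⟨neg_abs_le L, le_abs_self L⟩
  refine ⟨nu s, admissible_nu hs hs1 hsB, ?_⟩
  intro Ω _ P _ X hX n hn hnN
  have hS : Measurable (fun ω => (∑ i ∈ Finset.range n, X i ω) / Real.sqrt n) :=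
    (Finset.measurable_sum _ fun i _ => hX.1 i).div_const _
  have hSprob : IsProbabilityMeasure (sumLaw P X n) := Measure.isProbabilityMeasure_map hS.aemeasurable
  have hn1 : (1 : ℝ) ≤ n := by exact_mod_cast hn
  have hnN' : (n : ℝ) ≤ N' := by
    have : (n : ℝ) ≤ N := by exact_mod_cast hnN
    linarith
  have hlow := klDiv_ge (μ := sumLaw P X n) (ν := gaussianReal 0 1) (sum_null hX hn)
    (q := 4 * (n : ℝ) ^ 2 * s) (by positivity) (gaussian_valueSet hs hn)
  have hup := klDiv_nu_le hs hs1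
  have h1 : - Real.log s - Real.log (4 * N' ^ 2) ≤ - Real.log (4 * (n : ℝ) ^ 2 * s) := by
    rw [Real.log_mul (by positivity) hs.ne']
    have : Real.log (4 * (n : ℝ) ^ 2) ≤ Real.log (4 * N' ^ 2) := by
      apply Real.log_le_log (by positivity)
      have : (n : ℝ) ^ 2 ≤ N' ^ 2 := pow_le_pow_left₀ (by linarith) hnN' 2
      linarith
    linarith
  have h2 : η * (- Real.log s + L) < - Real.log s - Real.log (4 * N' ^ 2) := by
    have h3 : (1 - η) * K ≤ (1 - η) * (- Real.log s) :=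
      mul_le_mul_of_nonneg_left hlogs (by linarith)
    have h4 : (1 - η) * K = Real.log (4 * N' ^ 2) + |L| + 1 := by
      have hne : (1 - η) ≠ 0 := ne_of_gt (by linarith)
      rw [hK]
      field_simp
    have h5 : η * L ≤ |L| := by
      calc η * L ≤ η * |L| := mul_le_mul_of_nonneg_left habs.2 hη0
        _ ≤ 1 * |L| := mul_le_mul_of_nonneg_right hη1.le (abs_nonneg L)
        _ = |L| := one_mul _
    nlinarith
  have hpos : 0 < - Real.log s - Real.log (4 * N' ^ 2) := by
    have : 0 ≤ η * (- Real.log s + L) := by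
      apply mul_nonneg hη0
      linarith [habs.1]
    linarith
  calc ENNReal.ofReal θ * klDiv (nu s) (gaussianReal 0 1)
      ≤ ENNReal.ofReal η * ENNReal.ofReal (- Real.log s + L) := mul_le_mul' hηθ hup
    _ = ENNReal.ofReal (η * (- Real.log s + L)) := (ENNReal.ofReal_mul hη0).symm
    _ < ENNReal.ofReal (- Real.log s - Real.log (4 * N' ^ 2)) :=
        (ENNReal.ofReal_lt_ofReal_iff hpos).2 h2
    _ ≤ ENNReal.ofReal (- Real.log (4 * (n : ℝ) ^ 2 * s)) := ENNReal.ofReal_le_ofReal h1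
    _ ≤ klDiv (sumLaw P X n) (gaussianReal 0 1) := hlow

theorem result :
    -- for bounded laws the relative entropy need not decrease by any factor during `N` steps
    (∀ B θ : ℝ, 1 < B → θ < 1 → ∀ N : ℕ, ∃ ν : Measure ℝ, Admissible B ν ∧
      ∀ (Ω : Type) (_ : MeasurableSpace Ω) (P : Measure Ω) (_ : IsProbabilityMeasure P)
        (X : ℕ → Ω → ℝ), IsIID P X ν → ∀ n : ℕ, 1 ≤ n → n ≤ N →
          ENNReal.ofReal θ * klDiv ν (gaussianReal 0 1) <
            klDiv (sumLaw P X n) (gaussianReal 0 1)) ∧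
    -- for every `M > 1` no rate function is valid for all laws with `E X^4 ≤ M`
    (∀ (M : ℝ) (r : ℕ → ℝ), 1 < M →
      (∀ (Ω : Type) (_ : MeasurableSpace Ω) (P : Measure Ω) (_ : IsProbabilityMeasure P)
        (X : ℕ → Ω → ℝ), (∀ i, Measurable (X i)) → iIndepFun X P →
        (∀ i, IdentDistrib (X i) (X 0) P P) → P.map (X 0) ≪ volume →
        ∫ ω, X 0 ω ∂P = 0 → ∫ ω, X 0 ω ^ 2 ∂P = 1 →
        Integrable (fun ω => X 0 ω ^ 4) P → ∫ ω, X 0 ω ^ 4 ∂P ≤ M →
        klDiv (P.map (X 0)) (gaussianReal 0 1) ≠ ∞ →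
        ∀ n : ℕ, 1 ≤ n → klDiv (sumLaw P X n) (gaussianReal 0 1) ≤
          ENNReal.ofReal (r n) * klDiv (P.map (X 0)) (gaussianReal 0 1)) →
      ∀ n : ℕ, 1 ≤ n → 1 ≤ r n) := by
  refine ⟨main, ?_⟩
  intro M r hM H n hn
  by_contra hr
  push Not at hr
  have hB : 1 < Real.sqrt M := by
    rw [← Real.sqrt_one]
    exact Real.sqrt_lt_sqrt zero_le_one hM
  obtain ⟨ν, hν, hmain⟩ := main (Real.sqrt M) (r n) hB hr n
  have hprob := hν.prob
  let P : Measure (ℕ → ℝ) := Measure.infinitePi (fun _ : ℕ => ν)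
  have hP : IsProbabilityMeasure P := by infer_instance
  have hmap : ∀ i, P.map (fun ω : ℕ → ℝ => ω i) = ν := fun i =>
    Measure.infinitePi_map_eval (fun _ : ℕ => ν) i
  have hint : ∀ f : ℝ → ℝ, Continuous f → ∫ ω, f (ω 0) ∂P = ∫ x, f x ∂ν := by
    intro f hf
    rw [← hmap 0, integral_map (measurable_pi_apply 0).aemeasurable hf.aestronglyMeasurable]
  have hind : iIndepFun (fun (i : ℕ) (ω : ℕ → ℝ) => ω i) P :=
    iIndepFun_infinitePi (P := fun _ : ℕ => ν) (X := fun _ x => x) (fun _ => measurable_id)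
  have hiid : IsIID P (fun (i : ℕ) (ω : ℕ → ℝ) => ω i) ν :=
    ⟨fun i => measurable_pi_apply i, hind, hmap⟩
  obtain ⟨h4, h4'⟩ := fourth hν
  have key := H (ℕ → ℝ) inferInstance P hP (fun i ω => ω i) (fun i => measurable_pi_apply i)
    hind
    (fun i => ⟨(measurable_pi_apply i).aemeasurable, (measurable_pi_apply 0).aemeasurable,
      by rw [hmap i, hmap 0]⟩)
    (by rw [hmap 0]; exact hν.ac)
    (by rw [hint (fun x => x) continuous_id, hν.mean])
    (by rw [hint (fun x => x ^ 2) (by fun_prop), hν.var])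
    (by
      rw [← hmap 0] at h4
      exact h4.comp_measurable (measurable_pi_apply 0))
    (by
      rw [hint (fun x => x ^ 4) (by fun_prop)]
      rwa [Real.sq_sqrt (by linarith)] at h4')
    (by rw [hmap 0]; exact hν.finite)
    n hn
  rw [hmap 0] at key
  exact absurd (hmain (ℕ → ℝ) inferInstance P hP _ hiid n hn le_rfl) (not_lt.2 key)

end Pool.Agent.Results.MP_e841a3_pr.EntropyNoRate
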