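import Pool.Agent.Y203.CLT.Fisher
import Pool.Agent.Results.MP_e841a3_pr.EntropyRateFails

/-!
# No improvement at all under a fourth moment bound

For EVERY bound `M > 1` of the fourth moment and EVERY `n ≥ 1`, the relative Fisher information and
the relative entropy of the normalised sum of `n` summands can be as close as one wants, in ratio,
to those of a single summand: the best constant in `J(f_n‖φ) ≤ κ J(f_1‖φ)` and in
`D(f_n‖φ) ≤ κ D(f_1‖φ)` over the laws with fourth moment at most `M` is not smaller than `1`.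
-/

set_option autoImplicit false
open MeasureTheory ProbabilityTheory InformationTheory Filter Topology Set
open scoped ENNReal NNReal

namespace Pool.Agent.Results.MP_e841a3_pr.NoImprovement

open Pool.Agent.H992R2 Pool.Agent.H992R2.Mix Pool.Agent.Results.MP_e841a3_pr.FisherRateFails
open Pool.Agent.Results.MP_e841a3_pr.EntropyRateFails Pool.Agent.Y203.CLT

/-- `X 0, X 1, ...` are independent and identically distributed with mean `0`, variance `1`, fourth
moment at most `M`, and have a density. -/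
def IsSample {Ω : Type} [MeasurableSpace Ω] (M : ℝ) (P : Measure Ω) (X : ℕ → Ω → ℝ) : Prop :=
  IsProbabilityMeasure P ∧ (∀ i, Measurable (X i)) ∧ iIndepFun X P ∧
    (∀ i, IdentDistrib (X i) (X 0) P P) ∧ P.map (X 0) ≪ volume ∧
    ∫ ω, X 0 ω ∂P = 0 ∧ ∫ ω, X 0 ω ^ 2 ∂P = 1 ∧
    Integrable (fun ω => X 0 ω ^ 4) P ∧ ∫ ω, X 0 ω ^ 4 ∂P ≤ M

/-- The law of the normalised sum `(X 0 + ... + X (n-1)) / √n`. -/
noncomputable def lawS {Ω : Type} [MeasurableSpace Ω] (P : Measure Ω) (X : ℕ → Ω → ℝ) (n : ℕ) :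
    Measure ℝ :=
  P.map (fun ω => (∑ i ∈ Finset.range n, X i ω) / Real.sqrt n)

lemma lawS_one {Ω : Type} [MeasurableSpace Ω] (P : Measure Ω) (X : ℕ → Ω → ℝ) :
    lawS P X 1 = P.map (X 0) := by
  unfold lawS
  congr 1
  funext ω
  simp

/-- Independent copies of a law. -/
lemma sample_of_law {μ : Measure ℝ} (hμ : IsProbabilityMeasure μ) (hac : μ ≪ volume)
    (h1 : ∫ x, x ∂μ = 0) (h2 : ∫ x, x ^ 2 ∂μ = 1) (h4 : Integrable (fun x : ℝ => x ^ 4) μ) {M : ℝ}
    (hM : ∫ x, x ^ 4 ∂μ ≤ M) :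
    IsSample M (Measure.infinitePi (fun _ : ℕ => μ)) (fun i (ω : ℕ → ℝ) => ω i) ∧
      (Measure.infinitePi (fun _ : ℕ => μ)).map (fun ω : ℕ → ℝ => ω 0) = μ := by
  set P : Measure (ℕ → ℝ) := Measure.infinitePi (fun _ : ℕ => μ) with hPdef
  have hP : IsProbabilityMeasure P := by infer_instance
  have hmap : ∀ i, P.map (fun ω : ℕ → ℝ => ω i) = μ := fun i =>
    Measure.infinitePi_map_eval (fun _ : ℕ => μ) i
  have hint : ∀ f : ℝ → ℝ, Continuous f → ∫ ω, f (ω 0) ∂P = ∫ x, f x ∂μ := by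
    intro f hf
    rw [← hmap 0, integral_map (measurable_pi_apply 0).aemeasurable hf.aestronglyMeasurable]
  refine ⟨⟨hP, fun i => measurable_pi_apply i,
    iIndepFun_infinitePi (P := fun _ : ℕ => μ) (X := fun _ x => x) (fun _ => measurable_id),
    fun i => ⟨(measurable_pi_apply i).aemeasurable, (measurable_pi_apply 0).aemeasurable,
      by rw [hmap i, hmap 0]⟩, ?_, ?_, ?_, ?_, ?_⟩, hmap 0⟩
  · rw [hmap 0]; exact hac
  · rw [hint (fun x => x) continuous_id, h1]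
  · rw [hint (fun x => x ^ 2) (by fun_prop), h2]
  · have h := h4
    rw [← hmap 0] at h
    exact h.comp_measurable (measurable_pi_apply 0)
  · rw [hint (fun x => x ^ 4) (by fun_prop)]
    exact hM

/-! ### Fisher information -/

lemma fisher_ratio {M : ℝ} (hM : 1 < M) {n : ℕ} (hn : 1 ≤ n) {κ : ℝ} (hκ : κ < 1) :
    ∃ P : Measure (ℕ → ℝ), IsSample M P (fun i (ω : ℕ → ℝ) => ω i) ∧
      relFisher (lawS P (fun i (ω : ℕ → ℝ) => ω i) 1) ≠ ∞ ∧
      ENNReal.ofReal κ * relFisher (lawS P (fun i (ω : ℕ → ℝ) => ω i) 1) <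
        relFisher (lawS P (fun i (ω : ℕ → ℝ) => ω i) n) := by
  have hn0 : (0 : ℝ) < n := by exact_mod_cast hn
  set k : ℝ := max κ 0 with hk
  have hk1 : k < 1 := max_lt hκ one_pos
  have hk0 : 0 ≤ k := le_max_right _ _
  set δ : ℝ := (1 - k) / 4 with hδdef
  have hδ : 0 < δ := by rw [hδdef]; linarith
  have hδ1 : δ < 1 := by rw [hδdef]; linarith
  set Q : ℝ := 2 / δ + 2 + 20 * n with hQ
  have hQpos : 0 < Q := by positivity
  set w : ℝ := min (min (1 / 2) ((M - 1) / 4)) ((1 - k) / (4 * Q)) with hw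
  have hw0 : 0 < w := by
    apply lt_min (lt_min (by norm_num) (by linarith))
    apply div_pos (by linarith) (by positivity)
  have hw1 : w ≤ 1 / 2 := (min_le_left _ _).trans (min_le_left _ _)
  have hwM : w ≤ (M - 1) / 4 := (min_le_left _ _).trans (min_le_right _ _)
  have hwQ : w * Q ≤ (1 - k) / 4 := by
    have h : w ≤ (1 - k) / (4 * Q) := min_le_right _ _
    rw [le_div_iff₀ (by positivity)] at h
    linarith
  let v : ℝ≥0 := ⟨w, hw0.le⟩
  have hvr : (v : ℝ) = w := rfl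
  have hv : v ≠ 0 := by
    intro h
    have : (v : ℝ) = 0 := by rw [h]; rfl
    rw [hvr] at this
    exact hw0.ne' this
  set a : ℝ := Real.sqrt (1 - v) with ha
  have ha2 : a ^ 2 = 1 - v := Real.sq_sqrt (by rw [hvr]; linarith)
  have ha0 : 0 < a := Real.sqrt_pos.mpr (by rw [hvr]; linarith)
  have ha1 : a ≤ 1 := Real.sqrt_le_one.mpr (by rw [hvr]; linarith)
  have hprob := mixM_prob a v 1
  obtain ⟨hsam, hlaw⟩ := sample_of_law (μ := mixM a v 1) hprob
    (by rw [mixM_eq a hv 1]; exact withDensity_absolutelyContinuous _ _) (mix_mean a v)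
    (by rw [mix_second a v le_rfl, ha2]; ring)
    (integrable_mixM a v 1 fun b => shift_integrable _ v 4)
    (M := M) (by
      rw [mix_fourth]
      have h4 : a ^ 4 = (1 - v) ^ 2 := by rw [← ha2]; ring
      rw [h4, ha2, hvr]
      nlinarith)
  have hup := relFisher_upper' ha0.le ha1 hv (by rw [hvr]; linarith) hδ
  refine ⟨_, hsam, ?_, ?_⟩
  · rw [lawS_one, hlaw]
    exact ne_top_of_le_ne_top ENNReal.ofReal_ne_top hup
  rw [lawS_one, hlaw]
  have hlawn : lawS (Measure.infinitePi (fun _ : ℕ => mixM a v 1)) (fun i (ω : ℕ → ℝ) => ω i) n =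
      mixM a v n := law_sum a v hn
  rw [hlawn]
  -- the lower bound
  have hsn : 0 < Real.sqrt n := Real.sqrt_pos.mpr hn0
  set θ : ℝ := Real.pi * Real.sqrt n / a with hθ
  have hθ0 : 0 < θ := by positivity
  have hθa : θ * (a / Real.sqrt n) = Real.pi := by rw [hθ]; field_simp
  have h2θa : 2 * θ * (a / Real.sqrt n) = 2 * Real.pi := by rw [mul_assoc, hθa]
  set E : ℝ := Real.exp (-(v * θ ^ 2 / 2)) with hE
  set l : ℝ := -((-1) ^ n * (E / (w * θ))) with hl
  have hlow := relFisher_lower' a hv hn θ l hδ hδ1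
  rw [hθa, h2θa, Real.cos_pi, Real.cos_two_pi, one_pow, mul_one] at hlow
  have hsgn : ((-1 : ℝ) ^ n) * (-1) ^ n = 1 := by
    rw [← mul_pow]; norm_num
  have hθ2 : θ ^ 2 ≤ 20 * n := by
    rw [hθ, div_pow, mul_pow, Real.sq_sqrt hn0.le, ha2, hvr, div_le_iff₀ (by linarith)]
    have hpi : Real.pi ^ 2 ≤ 10 := by nlinarith [Real.pi_lt_d2, Real.pi_pos]
    nlinarith
  have hvθ : w * θ ^ 2 ≤ w * (20 * n) := by gcongr
  have hE2 : 1 - w * θ ^ 2 ≤ E ^ 2 := by
    have h1 := Real.add_one_le_exp (-(w * θ ^ 2))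
    have h2 : E ^ 2 = Real.exp (-(w * θ ^ 2)) := by
      rw [hE, hvr, sq, ← Real.exp_add]; ring_nf
    rw [h2]; linarith
  have hE4 : 1 - Real.exp (-(v * (2 * θ) ^ 2 / 2)) ≤ 2 * (w * θ ^ 2) := by
    have h1 := Real.add_one_le_exp (-(v * (2 * θ) ^ 2 / 2))
    rw [hvr] at h1 ⊢
    nlinarith
  have hmain : (1 - δ) * (E ^ 2 / w) - (1 / δ - 1) ≤ (1 - δ) * (2 * l * (-(θ * (E * (-1) ^ n))) -
      l ^ 2 * ((1 - Real.exp (-(v * (2 * θ) ^ 2 / 2))) / 2)) - (1 / δ - 1) * (a ^ 2 + v) := by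
    have h1 : 2 * l * (-(θ * (E * (-1) ^ n))) = 2 * (E ^ 2 / w) := by
      have : 2 * l * (-(θ * (E * (-1) ^ n))) =
          2 * (((-1 : ℝ) ^ n * (-1) ^ n) * (E / (w * θ) * θ * E)) := by
        rw [hl]; ring
      rw [this, hsgn]
      field_simp
    have h2 : l ^ 2 = E ^ 2 / (w * θ) ^ 2 := by
      have : l ^ 2 = ((-1 : ℝ) ^ n * (-1) ^ n) * (E / (w * θ)) ^ 2 := by rw [hl]; ring
      rw [this, hsgn, one_mul, div_pow]
    have h3 : l ^ 2 * ((1 - Real.exp (-(v * (2 * θ) ^ 2 / 2))) / 2) ≤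
        l ^ 2 * (2 * (w * θ ^ 2) / 2) := by gcongr
    have h4 : l ^ 2 * (2 * (w * θ ^ 2) / 2) = E ^ 2 / w := by
      rw [h2]; field_simp
    have h5 : a ^ 2 + (v : ℝ) = 1 := by rw [ha2]; ring
    rw [h1, h5, mul_one]
    have h6 : E ^ 2 / w ≤ 2 * (E ^ 2 / w) -
        l ^ 2 * ((1 - Real.exp (-(v * (2 * θ) ^ 2 / 2))) / 2) := by
      rw [h4] at h3
      linarith
    have h7 := mul_le_mul_of_nonneg_left h6 (by linarith : (0 : ℝ) ≤ 1 - δ)
    linarith
  have hfin : k * ((1 + 1 / δ) + (1 + δ) / w) < (1 - δ) * (E ^ 2 / w) - (1 / δ - 1) := by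
    have h1 : 0 < 1 / δ := by positivity
    have h2 : 2 / δ = 2 * (1 / δ) := by ring
    rw [← mul_lt_mul_iff_left₀ hw0]
    have e1 : k * ((1 + 1 / δ) + (1 + δ) / w) * w = k * ((1 + 1 / δ) * w + (1 + δ)) := by
      field_simp
    have e2 : ((1 - δ) * (E ^ 2 / w) - (1 / δ - 1)) * w =
        (1 - δ) * E ^ 2 - (1 / δ - 1) * w := by
      field_simp
    rw [e1, e2]
    have h3 : (1 - δ) * (1 - w * θ ^ 2) ≤ (1 - δ) * E ^ 2 :=
      mul_le_mul_of_nonneg_left hE2 (by linarith)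
    have h4 : k * ((1 + 1 / δ) * w) ≤ (1 + 1 / δ) * w := by
      have : 0 ≤ (1 + 1 / δ) * w := by positivity
      nlinarith
    have h5 : (1 - δ) * (w * θ ^ 2) ≤ w * (20 * n) := by
      have : 0 ≤ w * θ ^ 2 := by positivity
      nlinarith
    have h6 : w * Q = 2 * (1 / δ) * w + 2 * w + w * (20 * n) := by rw [hQ, h2]; ring
    have h7 : k * (1 + δ) = k + k * δ := by ring
    have h8 : k * δ ≤ δ := by nlinarith
    have h9 : 1 - k = 4 * δ := by rw [hδdef]; ring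
    have h10 : 0 < 1 / δ * w := by positivity
    linarith
  have hfin2 : ENNReal.ofReal (k * ((1 + 1 / δ) + (1 + δ) / w)) <
      ENNReal.ofReal ((1 - δ) * (E ^ 2 / w) - (1 / δ - 1)) := by
    apply (ENNReal.ofReal_lt_ofReal_iff_of_nonneg (by positivity)).2 hfin
  calc ENNReal.ofReal κ * relFisher (mixM a v 1)
      ≤ ENNReal.ofReal k * ENNReal.ofReal ((1 + 1 / δ) + (1 + δ) / v) :=
        mul_le_mul' (ENNReal.ofReal_le_ofReal (le_max_left _ _)) hup
    _ = ENNReal.ofReal (k * ((1 + 1 / δ) + (1 + δ) / w)) := by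
        rw [← ENNReal.ofReal_mul hk0, hvr]
    _ < ENNReal.ofReal ((1 - δ) * (E ^ 2 / w) - (1 / δ - 1)) := hfin2
    _ ≤ _ := ENNReal.ofReal_le_ofReal hmain
    _ ≤ relFisher (mixM a v n) := hlow

/-! ### Relative entropy -/

lemma nu_fourth' {s : ℝ} (hs : 0 < s) (hs1 : s ≤ 1 / 2) {M : ℝ} (hM : (1 + s) ^ 4 ≤ M) :
    ∫ x, x ^ 4 ∂(nu s) ≤ M := by
  have := nu_prob hs hs1
  have h1 : ∫ x, x ^ 4 ∂(nu s) ≤ ∫ _x, M ∂(nu s) := by
    apply integral_mono_ae (nu_fourth_int hs hs1) (integrable_const _)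
    filter_upwards [nu_ae s] with x hx
    have h2 : x ^ 4 = |x| ^ 4 := by
      rw [← abs_pow]
      exact (abs_of_nonneg (by positivity)).symm
    have h3 := cen_le (s := s)
    have h0 : 0 ≤ cen s := Real.sqrt_nonneg _
    have h4 : |x| ≤ 1 + s := by
      rcases hx with hx | hx
      · rw [abs_le]; constructor <;> linarith [hx.1, hx.2]
      · rw [abs_le]; constructor <;> linarith [hx.1, hx.2]
    simp only [h2]
    exact (pow_le_pow_left₀ (abs_nonneg x) h4 4).trans hM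
  simpa using h1

lemma entropy_ratio {M : ℝ} (hM : 1 < M) {n : ℕ} (hn : 1 ≤ n) {κ : ℝ} (hκ : κ < 1) :
    ∃ P : Measure (ℕ → ℝ), IsSample M P (fun i (ω : ℕ → ℝ) => ω i) ∧
      klDiv (lawS P (fun i (ω : ℕ → ℝ) => ω i) 1) (gaussianReal 0 1) ≠ ∞ ∧
      ENNReal.ofReal κ * klDiv (lawS P (fun i (ω : ℕ → ℝ) => ω i) 1) (gaussianReal 0 1) <
        klDiv (lawS P (fun i (ω : ℕ → ℝ) => ω i) n) (gaussianReal 0 1) := by
  have hn1 : (1 : ℝ) ≤ n := by exact_mod_cast hn
  set k : ℝ := max κ 0 with hk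
  have hk1 : k < 1 := max_lt hκ one_pos
  have hk0 : 0 ≤ k := le_max_right _ _
  set L : ℝ := Real.log (Real.sqrt (2 * Real.pi) * Real.exp 2 / 4) with hL
  have hlog4 : 0 ≤ Real.log (4 * (n : ℝ) ^ 2) := Real.log_nonneg (by nlinarith)
  set K : ℝ := (Real.log (4 * (n : ℝ) ^ 2) + |L| + 1) / (1 - k) with hK
  have hK1 : K * (1 - k) = Real.log (4 * (n : ℝ) ^ 2) + |L| + 1 := by
    rw [hK, div_mul_cancel₀]
    linarith
  have hKpos : 0 < K := by
    apply div_pos _ (by linarith)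
    have := abs_nonneg L
    linarith
  have hKL : |L| ≤ K := by
    have h := abs_nonneg L
    rw [hK, le_div_iff₀ (by linarith)]
    nlinarith
  set s : ℝ := min (min (1 / 2) ((M - 1) / 15)) (Real.exp (-K)) with hs_def
  have hs : 0 < s := lt_min (lt_min (by norm_num) (by linarith)) (Real.exp_pos _)
  have hs1 : s ≤ 1 / 2 := (min_le_left _ _).trans (min_le_left _ _)
  have hsM : s ≤ (M - 1) / 15 := (min_le_left _ _).trans (min_le_right _ _)
  have hlogs : K ≤ - Real.log s := by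
    have : Real.log s ≤ Real.log (Real.exp (-K)) := Real.log_le_log hs (min_le_right _ _)
    rw [Real.log_exp] at this
    linarith
  have hM4 : (1 + s) ^ 4 ≤ M := by
    have h1 : s ^ 2 ≤ s := by nlinarith
    have h2 : s ^ 3 ≤ s := by nlinarith
    have h3 : s ^ 4 ≤ s := by nlinarith [mul_nonneg hs.le (sq_nonneg s)]
    have e : (1 + s) ^ 4 = 1 + 4 * s + 6 * s ^ 2 + 4 * s ^ 3 + s ^ 4 := by ring
    rw [e]
    linarith
  have hprob := nu_prob hs hs1
  obtain ⟨hsam, hlaw⟩ := sample_of_law (μ := nu s) hprob (nu_ac s) (nu_mean hs hs1) (nu_sq hs hs1)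
    (nu_fourth_int hs hs1) (M := M) (nu_fourth' hs hs1 hM4)
  have hup := klDiv_nu_le hs hs1
  refine ⟨_, hsam, ?_, ?_⟩
  · rw [lawS_one, hlaw]
    exact ne_top_of_le_ne_top ENNReal.ofReal_ne_top hup
  rw [lawS_one, hlaw]
  set P : Measure (ℕ → ℝ) := Measure.infinitePi (fun _ : ℕ => nu s) with hPdef
  have hP : IsProbabilityMeasure P := by infer_instance
  have hmap : ∀ i, P.map (fun ω : ℕ → ℝ => ω i) = nu s := fun i =>
    Measure.infinitePi_map_eval (fun _ : ℕ => nu s) i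
  have hS : Measurable (fun ω : ℕ → ℝ => (∑ i ∈ Finset.range n, ω i) / Real.sqrt n) := by
    fun_prop
  have hSprob : IsProbabilityMeasure
      (P.map (fun ω : ℕ → ℝ => (∑ i ∈ Finset.range n, ω i) / Real.sqrt n)) :=
    Measure.isProbabilityMeasure_map hS.aemeasurable
  have hnull : (P.map (fun ω : ℕ → ℝ => (∑ i ∈ Finset.range n, ω i) / Real.sqrt n))
      (valueSet s n)ᶜ = 0 := by
    rw [Measure.map_apply hS (meas_valueSet s n).compl]
    have hall : ∀ᵐ ω ∂P, ∀ i, ω i ∈ bumps s := by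
      rw [ae_all_iff]
      intro i
      have h1 := nu_ae s
      rw [← hmap i] at h1
      exact ae_of_ae_map (measurable_pi_apply i).aemeasurable h1
    have h2 : ∀ᵐ ω ∂P, ω ∉ (fun ω : ℕ → ℝ => (∑ i ∈ Finset.range n, ω i) / Real.sqrt n) ⁻¹'
        (valueSet s n)ᶜ := by
      filter_upwards [hall] with ω hω
      simp only [mem_preimage, mem_compl_iff, not_not]
      exact sum_mem_valueSet s ω hω hn
    exact measure_eq_zero_iff_ae_notMem.mpr h2
  have hlow := klDiv_ge (μ := P.map (fun ω : ℕ → ℝ => (∑ i ∈ Finset.range n, ω i) / Real.sqrt n))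
    (ν := gaussianReal 0 1) hnull (q := 4 * (n : ℝ) ^ 2 * s) (by positivity)
    (gaussian_valueSet hs hn)
  have habs : -|L| ≤ L ∧ L ≤ |L| := ⟨neg_abs_le L, le_abs_self L⟩
  have hfin : k * (- Real.log s + L) < - Real.log (4 * (n : ℝ) ^ 2 * s) := by
    rw [Real.log_mul (by positivity) hs.ne']
    have h1 : k * L ≤ |L| := by
      have := abs_nonneg L
      nlinarith [habs.2]
    have h2 : (1 - k) * K ≤ (1 - k) * (- Real.log s) :=
      mul_le_mul_of_nonneg_left hlogs (by linarith)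
    linarith
  have hnn : 0 ≤ k * (- Real.log s + L) := mul_nonneg hk0 (by linarith [habs.1])
  calc ENNReal.ofReal κ * klDiv (nu s) (gaussianReal 0 1)
      ≤ ENNReal.ofReal k * ENNReal.ofReal (- Real.log s + L) :=
        mul_le_mul' (ENNReal.ofReal_le_ofReal (le_max_left _ _)) hup
    _ = ENNReal.ofReal (k * (- Real.log s + L)) := by rw [← ENNReal.ofReal_mul hk0]
    _ < ENNReal.ofReal (- Real.log (4 * (n : ℝ) ^ 2 * s)) :=
        (ENNReal.ofReal_lt_ofReal_iff_of_nonneg hnn).2 hfin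
    _ ≤ _ := hlow

/-- **No improvement at all under a fourth moment bound.** For every `M > 1` and every `n ≥ 1` the
ratios `J(f_n‖φ) / J(f_1‖φ)` and `D(f_n‖φ) / D(f_1‖φ)` take values above every `κ < 1` on the laws
with fourth moment at most `M`. Hence for no `M > 1` is there a bound `r n` with `r n < 1` for some
`n`, such as `C / n`. -/
theorem result :
    (∀ M : ℝ, 1 < M → ∀ n : ℕ, 1 ≤ n → ∀ κ : ℝ, κ < 1 →
      ∃ (Ω : Type) (_ : MeasurableSpace Ω) (P : Measure Ω) (X : ℕ → Ω → ℝ), IsSample M P X ∧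
        relFisher (lawS P X 1) ≠ ∞ ∧
        ENNReal.ofReal κ * relFisher (lawS P X 1) < relFisher (lawS P X n)) ∧
    (∀ M : ℝ, 1 < M → ∀ n : ℕ, 1 ≤ n → ∀ κ : ℝ, κ < 1 →
      ∃ (Ω : Type) (_ : MeasurableSpace Ω) (P : Measure Ω) (X : ℕ → Ω → ℝ), IsSample M P X ∧
        klDiv (lawS P X 1) (gaussianReal 0 1) ≠ ∞ ∧
        ENNReal.ofReal κ * klDiv (lawS P X 1) (gaussianReal 0 1) <
          klDiv (lawS P X n) (gaussianReal 0 1)) ∧
    (∀ M : ℝ, 1 < M → ∀ r : ℕ → ℝ, (∃ n, 1 ≤ n ∧ r n < 1) →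
      (¬ ∀ (Ω : Type) (_ : MeasurableSpace Ω) (P : Measure Ω) (X : ℕ → Ω → ℝ), IsSample M P X →
        ∀ n : ℕ, 1 ≤ n → relFisher (lawS P X n) ≤ ENNReal.ofReal (r n) * relFisher (lawS P X 1)) ∧
      ¬ ∀ (Ω : Type) (_ : MeasurableSpace Ω) (P : Measure Ω) (X : ℕ → Ω → ℝ), IsSample M P X →
        ∀ n : ℕ, 1 ≤ n → klDiv (lawS P X n) (gaussianReal 0 1) ≤
          ENNReal.ofReal (r n) * klDiv (lawS P X 1) (gaussianReal 0 1)) := by
  refine ⟨?_, ?_, ?_⟩
  · intro M hM n hn κ hκ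
    obtain ⟨P, h1, h2, h3⟩ := fisher_ratio hM hn hκ
    exact ⟨_, _, P, _, h1, h2, h3⟩
  · intro M hM n hn κ hκ
    obtain ⟨P, h1, h2, h3⟩ := entropy_ratio hM hn hκ
    exact ⟨_, _, P, _, h1, h2, h3⟩
  · rintro M hM r ⟨n, hn, hr⟩
    constructor
    · intro H
      obtain ⟨P, h1, _, h3⟩ := fisher_ratio hM hn hr
      exact absurd (H _ _ P _ h1 n hn) (not_le.2 h3)
    · intro H
      obtain ⟨P, h1, _, h3⟩ := entropy_ratio hM hn hr
      exact absurd (H _ _ P _ h1 n hn) (not_le.2 h3)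

end Pool.Agent.Results.MP_e841a3_pr.NoImprovement
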